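import Mathlib

/-!
# Abstract part: semigroups on a Hilbert space which scale a sequence of seminorms
-/

set_option autoImplicit false

open Filter Topology

namespace Pool.Agent.K9h27.SG

/-- the decay rates `2 ^ (-j)` -/
noncomputable def rate (j : ℕ) : ℝ := (1 / 2) ^ j

lemma rate_pos (j : ℕ) : 0 < rate j := by unfold rate; positivity

lemma rate_succ (j : ℕ) : rate (j + 1) = rate j / 2 := by unfold rate; rw [pow_succ]; ring

/-- `N j` are seminorms with `∑ N j u ^ 2 = ‖u‖ ^ 2`, scaled by `T t` with the rate `2 ^ (-j)`. -/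
structure Scaled {H : Type*} [NormedAddCommGroup H] [NormedSpace ℂ H] (N : ℕ → H → ℝ)
    (T : ℝ → H → H) : Prop where
  add : ∀ j u v, N j (u + v) ≤ N j u + N j v
  smul : ∀ j (c : ℂ) u, N j (c • u) = ‖c‖ * N j u
  nonneg : ∀ j u, 0 ≤ N j u
  sum : ∀ u, HasSum (fun j => (N j u) ^ 2) (‖u‖ ^ 2)
  mono : ∀ j u, (N j u) ^ 2 ≤ 2 * (N (j + 1) u) ^ 2
  scale : ∀ j t u, 0 ≤ t → N j (T t u) = Real.exp (-rate j * t) * N j u

variable {H : Type*} [NormedAddCommGroup H] [NormedSpace ℂ H] {N : ℕ → H → ℝ} {T : ℝ → H → H}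

lemma Scaled.le_norm (h : Scaled N T) (j : ℕ) (u : H) : N j u ≤ ‖u‖ := by
  have h1 : (N j u) ^ 2 ≤ ‖u‖ ^ 2 := le_hasSum (h.sum u) j (fun i _ => sq_nonneg _)
  exact (pow_le_pow_iff_left₀ (h.nonneg j u) (norm_nonneg u) two_ne_zero).mp h1

lemma Scaled.contract (h : Scaled N T) (t : ℝ) (ht : 0 ≤ t) (u : H) : ‖T t u‖ ≤ ‖u‖ := by
  have h1 : ‖T t u‖ ^ 2 ≤ ‖u‖ ^ 2 := by
    refine hasSum_le (fun j => ?_) (h.sum (T t u)) (h.sum u)
    rw [h.scale j t u ht]
    have h2 : Real.exp (-rate j * t) ≤ 1 := by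
      rw [Real.exp_le_one_iff]
      have := rate_pos j
      nlinarith [mul_nonneg this.le ht]
    have h3 : Real.exp (-rate j * t) * N j u ≤ N j u :=
      mul_le_of_le_one_left (h.nonneg j u) h2
    exact pow_le_pow_left₀ (mul_nonneg (Real.exp_pos _).le (h.nonneg j u)) h3 2
  exact (pow_le_pow_iff_left₀ (norm_nonneg _) (norm_nonneg u) two_ne_zero).mp h1

lemma Scaled.sub_le (h : Scaled N T) (j : ℕ) (u v : H) : N j u - N j v ≤ N j (u - v) := by
  have := h.add j (u - v) v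
  rw [sub_add_cancel] at this
  linarith

lemma Scaled.symm (h : Scaled N T) (j : ℕ) (u v : H) : N j (u - v) = N j (v - u) := by
  have : u - v = (-1 : ℂ) • (v - u) := by rw [neg_one_smul]; abel
  rw [this, h.smul]; simp

/-- the derivative of `h ↦ ‖1 + h μ‖` at zero -/
lemma hasDerivAt_norm (μ : ℂ) : HasDerivAt (fun h : ℝ => ‖1 + (h : ℂ) * μ‖) μ.re 0 := by
  have h1 : ∀ h : ℝ, ‖1 + (h : ℂ) * μ‖ = Real.sqrt ((1 + h * μ.re) ^ 2 + (h * μ.im) ^ 2) := by
    intro h
    rw [Complex.norm_def, Complex.normSq_apply]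
    congr 1
    simp
    ring
  have h2 : HasDerivAt (fun h : ℝ => (1 + h * μ.re) ^ 2 + (h * μ.im) ^ 2) (2 * μ.re) 0 := by
    have h3 : HasDerivAt (fun h : ℝ => 1 + h * μ.re) μ.re 0 := by
      simpa using ((hasDerivAt_id (0 : ℝ)).mul_const μ.re).const_add 1
    have h4 : HasDerivAt (fun h : ℝ => h * μ.im) μ.im 0 := by
      simpa using ((hasDerivAt_id (0 : ℝ)).mul_const μ.im)
    have := (h3.fun_pow 2).fun_add (h4.fun_pow 2)
    have h5 : ((2 : ℕ) : ℝ) * (1 + 0 * μ.re) ^ (2 - 1) * μ.re +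
        ((2 : ℕ) : ℝ) * (0 * μ.im) ^ (2 - 1) * μ.im = 2 * μ.re := by norm_num
    rwa [h5] at this
  have h5 := h2.sqrt (by norm_num)
  simp only [h1]
  convert h5 using 1
  norm_num

/-- The lower bound for one seminorm. -/
lemma Scaled.lower (h : Scaled N T) (j : ℕ) (u y : H)
    (hy : Tendsto (fun s : ℝ => ((s : ℂ)⁻¹) • (T s u - u)) (𝓝[>] 0) (𝓝 y)) (μ : ℂ) :
    |μ.re + rate j| * N j u ≤ N j (μ • u - y) := by
  set f := μ • u - y with hf
  -- the remainder
  have hr : Tendsto (fun s : ℝ => N j (((s : ℂ)⁻¹) • (T s u - u) - y)) (𝓝[>] 0) (𝓝 0) := by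
    have h1 : Tendsto (fun s : ℝ => ‖((s : ℂ)⁻¹) • (T s u - u) - y‖) (𝓝[>] 0) (𝓝 0) := by
      rw [← tendsto_iff_norm_sub_tendsto_zero]; exact hy
    exact squeeze_zero (fun s => h.nonneg j _) (fun s => h.le_norm j _) h1
  -- the quotient
  have hq : Tendsto (fun s : ℝ => |(‖1 + (s : ℂ) * μ‖ - Real.exp (-rate j * s)) / s| * N j u)
      (𝓝[>] 0) (𝓝 (|μ.re + rate j| * N j u)) := by
    refine Tendsto.mul_const _ (Tendsto.abs ?_)
    have h1 : HasDerivAt (fun s : ℝ => ‖1 + (s : ℂ) * μ‖ - Real.exp (-rate j * s))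
        (μ.re + rate j) 0 := by
      have h2 : HasDerivAt (fun s : ℝ => Real.exp (-rate j * s)) (-rate j) 0 := by
        have h3 : HasDerivAt (fun s : ℝ => -rate j * s) (-rate j) 0 := by
          simpa using (hasDerivAt_id (0 : ℝ)).const_mul (-rate j)
        have := h3.exp
        simpa using this
      have := (hasDerivAt_norm μ).fun_sub h2
      rwa [sub_neg_eq_add] at this
    have h2 := h1.hasDerivWithinAt (s := Set.Ioi 0)
    rw [hasDerivWithinAt_iff_tendsto_slope' (by simp)] at h2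
    refine h2.congr' ?_
    filter_upwards [self_mem_nhdsWithin] with s hs
    simp [slope_def_field]
  have hc : Tendsto (fun s : ℝ => N j f + N j (((s : ℂ)⁻¹) • (T s u - u) - y)) (𝓝[>] 0)
      (𝓝 (N j f)) := by
    simpa using hr.const_add (N j f)
  refine le_of_tendsto_of_tendsto hq hc ?_
  filter_upwards [self_mem_nhdsWithin] with s hs
  have hs0 : (0 : ℝ) < s := hs
  have hsC : (s : ℂ) ≠ 0 := by exact_mod_cast hs0.ne'
  set r := ((s : ℂ)⁻¹) • (T s u - u) - y with hrdef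
  have hT : T s u = (1 + (s : ℂ) * μ) • u - (s : ℂ) • (f - r) := by
    have h1 : (s : ℂ) • (f - r) = (s : ℂ) • (μ • u) - (T s u - u) := by
      have h2 : f - r = μ • u - ((s : ℂ)⁻¹) • (T s u - u) := by rw [hf, hrdef]; abel
      rw [h2, smul_sub, smul_inv_smul₀ hsC]
    rw [h1, add_smul, one_smul, mul_smul]
    abel
  have h1 : N j ((s : ℂ) • (f - r)) ≤ s * (N j f + N j r) := by
    rw [h.smul]
    have h2 : N j (f - r) ≤ N j f + N j r := by
      have h3 := h.add j f ((-1 : ℂ) • r)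
      rw [h.smul, neg_one_smul, ← sub_eq_add_neg] at h3
      simpa using h3
    have h4 : ‖(s : ℂ)‖ = s := by
      rw [Complex.norm_real, Real.norm_of_nonneg hs0.le]
    rw [h4]
    exact mul_le_mul_of_nonneg_left h2 hs0.le
  have h2 : N j (T s u) = Real.exp (-rate j * s) * N j u := h.scale j s u hs0.le
  have h3 : N j ((1 + (s : ℂ) * μ) • u) = ‖1 + (s : ℂ) * μ‖ * N j u := h.smul j _ u
  have h4 : |‖1 + (s : ℂ) * μ‖ - Real.exp (-rate j * s)| * N j u ≤ s * (N j f + N j r) := by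
    rw [← abs_of_nonneg (h.nonneg j u), ← abs_mul, sub_mul, ← h2, ← h3]
    rw [abs_le]
    constructor
    · have h5 := h.sub_le j (T s u) ((1 + (s : ℂ) * μ) • u)
      have h6 : T s u - (1 + (s : ℂ) * μ) • u = (-1 : ℂ) • ((s : ℂ) • (f - r)) := by
        rw [hT, neg_one_smul]; abel
      rw [h6, h.smul j (-1) _, norm_neg, norm_one, one_mul] at h5
      linarith
    · have h5 := h.sub_le j ((1 + (s : ℂ) * μ) • u) (T s u)
      have h6 : (1 + (s : ℂ) * μ) • u - T s u = (s : ℂ) • (f - r) := by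
        rw [hT]; abel
      rw [h6] at h5
      linarith
  rw [abs_div, abs_of_pos hs0, div_mul_eq_mul_div, div_le_iff₀ hs0]
  linarith

/-- **The resolvent lower bound.** -/
lemma Scaled.resolvent (h : Scaled N T) (u y : H)
    (hy : Tendsto (fun s : ℝ => ((s : ℂ)⁻¹) • (T s u - u)) (𝓝[>] 0) (𝓝 y)) (μ : ℂ)
    (hμ : μ.re < 0) : 1 / 7 * |μ.re| * ‖u‖ ≤ ‖μ • u - y‖ := by
  set f := μ • u - y with hf
  set a : ℝ := -μ.re with ha
  have ha0 : 0 < a := by rw [ha]; linarith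
  have hlow : ∀ j, (rate j - a) ^ 2 * (N j u) ^ 2 ≤ (N j f) ^ 2 := by
    intro j
    have h1 := h.lower j u y hy μ
    have h2 : (|μ.re + rate j| * N j u) ^ 2 ≤ (N j f) ^ 2 :=
      pow_le_pow_left₀ (mul_nonneg (abs_nonneg _) (h.nonneg j u)) h1 2
    rw [mul_pow, sq_abs] at h2
    have h3 : μ.re + rate j = rate j - a := by rw [ha]; ring
    rwa [h3] at h2
  have hterm : ∀ j, a ^ 2 * (N j u) ^ 2 ≤ 25 * (N j f) ^ 2 + 25 / 2 * (N (j + 1) f) ^ 2 := by
    intro j
    by_cases hj : a ^ 2 ≤ 25 * (rate j - a) ^ 2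
    · have h1 := hlow j
      nlinarith [sq_nonneg (N (j + 1) f), sq_nonneg (N j u), mul_le_mul_of_nonneg_right hj (sq_nonneg (N j u))]
    · rw [not_le] at hj
      have h1 : |5 * (rate j - a)| < |a| := by
        rw [← sq_lt_sq]; nlinarith
      rw [abs_of_pos ha0, abs_lt] at h1
      have h2 : a ^ 2 * 4 ≤ 25 * (rate (j + 1) - a) ^ 2 := by
        rw [rate_succ]
        nlinarith [h1.1, h1.2]
      have h3 := hlow (j + 1)
      have h4 := h.mono j u
      have h5 := mul_le_mul_of_nonneg_right h2 (sq_nonneg (N (j + 1) u))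
      nlinarith [sq_nonneg (N j f), mul_le_mul_of_nonneg_left h4 (sq_nonneg a)]
  have hs1 := (h.sum u).mul_left (a ^ 2)
  have hs2 := h.sum f
  have hs3 : HasSum (fun j => (N (j + 1) f) ^ 2) (‖f‖ ^ 2 - (N 0 f) ^ 2) := by
    have := (hasSum_nat_add_iff' 1).mpr hs2
    simpa using this
  have h1 := hasSum_le hterm hs1 ((hs2.mul_left 25).add (hs3.mul_left (25 / 2)))
  have h2 : (a * ‖u‖) ^ 2 ≤ (7 * ‖f‖) ^ 2 := by
    nlinarith [sq_nonneg (N 0 f), sq_nonneg ‖f‖]
  have h3 : a * ‖u‖ ≤ 7 * ‖f‖ := by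
    refine (pow_le_pow_iff_left₀ (by positivity) (by positivity) two_ne_zero).mp h2
  rw [abs_of_neg hμ, ← ha]
  linarith

/-- The orbits tend to zero. -/
lemma Scaled.tendsto_zero (h : Scaled N T) (u : H) :
    Tendsto (fun t : ℝ => ‖T t u‖) atTop (𝓝 0) := by
  have h1 : Tendsto (fun t : ℝ => ∑' j, (N j (T t u)) ^ 2) atTop (𝓝 (∑' _ : ℕ, (0 : ℝ))) := by
    refine tendsto_tsum_of_dominated_convergence (h.sum u).summable (fun j => ?_) ?_
    · have h2 : Tendsto (fun t : ℝ => (Real.exp (-rate j * t) * N j u) ^ 2) atTop (𝓝 0) := by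
        have h3 : Tendsto (fun t : ℝ => Real.exp (-rate j * t)) atTop (𝓝 0) := by
          refine Real.tendsto_exp_atBot.comp ?_
          exact tendsto_id.const_mul_atTop_of_neg (by linarith [rate_pos j])
        have := (h3.mul_const (N j u)).pow 2
        simpa using this
      refine h2.congr' ?_
      filter_upwards [eventually_ge_atTop 0] with t ht
      rw [h.scale j t u ht]
    · filter_upwards [eventually_ge_atTop 0] with t ht
      intro j
      rw [h.scale j t u ht, Real.norm_of_nonneg (sq_nonneg _)]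
      have h2 : Real.exp (-rate j * t) ≤ 1 := by
        rw [Real.exp_le_one_iff]
        nlinarith [mul_nonneg (rate_pos j).le ht]
      exact pow_le_pow_left₀ (mul_nonneg (Real.exp_pos _).le (h.nonneg j u))
        (mul_le_of_le_one_left (h.nonneg j u) h2) 2
  rw [tsum_zero] at h1
  have h2 : ∀ t, ∑' j, (N j (T t u)) ^ 2 = ‖T t u‖ ^ 2 := fun t => (h.sum (T t u)).tsum_eq
  simp only [h2] at h1
  have h3 := h1.sqrt
  simpa [Real.sqrt_sq] using h3

end Pool.Agent.K9h27.SG
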