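import Mathlib
import Pool.Agent.K9h27.SG.Abs

/-!
# The translation semigroup on a weighted `L²` space
-/

set_option autoImplicit false

open MeasureTheory Filter Topology Set ENNReal

namespace Pool.Agent.K9h27.SG

/-- the weight `2 ^ (-j) exp (- 2 * 2 ^ (-j) * y)` -/
noncomputable def wt (j : ℕ) (y : ℝ) : ℝ≥0∞ :=
  ENNReal.ofReal (rate j * Real.exp (-2 * rate j * y))

lemma measurable_wt (j : ℕ) : Measurable (wt j) := by unfold wt; fun_prop

/-- the measure with density `wt j` on the positive half-line -/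
noncomputable def mj (j : ℕ) : Measure ℝ := (volume.restrict (Ioi 0)).withDensity (wt j)

/-- their sum -/
noncomputable def mm : Measure ℝ := Measure.sum mj

lemma mj_le (j : ℕ) : mj j ≤ mm := Measure.le_sum mj j

lemma lintegral_mj (j : ℕ) {F : ℝ → ℝ≥0∞} (hF : Measurable F) :
    ∫⁻ x, F x ∂(mj j) = ∫⁻ x in Ioi (0 : ℝ), wt j x * F x := by
  unfold mj
  rw [lintegral_withDensity_eq_lintegral_mul _ (measurable_wt j) hF]
  rfl

lemma lintegral_mm (F : ℝ → ℝ≥0∞) : ∫⁻ x, F x ∂mm = ∑' j, ∫⁻ x, F x ∂(mj j) :=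
  lintegral_sum_measure _ _

/-- translation to the right -/
noncomputable def shift {E : Type} [Zero E] (t : ℝ) (u : ℝ → E) : ℝ → E := fun x => if t < x then u (x - t) else 0

lemma measurable_shift {E : Type} [Zero E] [MeasurableSpace E] {u : ℝ → E} (hu : Measurable u)
    (t : ℝ) : Measurable (shift t u) := by
  unfold shift
  exact Measurable.ite measurableSet_Ioi (hu.comp (measurable_id.sub_const t)) measurable_const

lemma stronglyMeasurable_shift {u : ℝ → ℂ} (hu : Measurable u) (t : ℝ) :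
    StronglyMeasurable (shift t u) := (measurable_shift hu t).stronglyMeasurable

lemma wt_add (j : ℕ) (t y : ℝ) :
    wt j (y + t) = ENNReal.ofReal (Real.exp (-2 * rate j * t)) * wt j y := by
  unfold wt
  rw [← ENNReal.ofReal_mul (Real.exp_pos _).le]
  congr 1
  rw [mul_add, Real.exp_add]; ring

lemma lintegral_shift (j : ℕ) {t : ℝ} (ht : 0 ≤ t) {F : ℝ → ℝ≥0∞} (hF : Measurable F) :
    ∫⁻ x, shift t F x ∂(mj j) =
      ENNReal.ofReal (Real.exp (-2 * rate j * t)) * ∫⁻ x, F x ∂(mj j) := by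
  rw [lintegral_mj j (measurable_shift hF t), lintegral_mj j hF]
  rw [← lintegral_indicator measurableSet_Ioi, ← lintegral_indicator measurableSet_Ioi]
  have hm : Measurable ((Ioi (0 : ℝ)).indicator (fun x => wt j x * F x)) :=
    ((measurable_wt j).mul hF).indicator measurableSet_Ioi
  rw [← lintegral_const_mul _ hm]
  rw [← lintegral_sub_right_eq_self (fun x => ENNReal.ofReal (Real.exp (-2 * rate j * t)) *
    (Ioi (0 : ℝ)).indicator (fun x => wt j x * F x) x) t]
  refine lintegral_congr (fun x => ?_)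
  unfold shift
  by_cases h : t < x
  · have h1 : x ∈ Ioi (0 : ℝ) := lt_of_le_of_lt ht h
    have h2 : x - t ∈ Ioi (0 : ℝ) := by simpa using h
    rw [indicator_of_mem h1, indicator_of_mem h2, if_pos h]
    have h3 := wt_add j t (x - t)
    rw [sub_add_cancel] at h3
    rw [h3, mul_assoc]
  · have h2 : x - t ∉ Ioi (0 : ℝ) := by simpa using h
    rw [indicator_of_notMem h2, mul_zero, indicator_apply, if_neg h, mul_zero, ite_self]

lemma shift_ae {E : Type} [Zero E] [MeasurableSpace E] [MeasurableEq E] {t : ℝ} (ht : 0 ≤ t)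
    {u v : ℝ → E} (hu : Measurable u) (hv : Measurable v) (h : u =ᵐ[mm] v) :
    shift t u =ᵐ[mm] shift t v := by
  have hms : MeasurableSet {x | u x ≠ v x} := (measurableSet_eq_fun hu hv).compl
  have hF : Measurable (({x | u x ≠ v x} : Set ℝ).indicator (fun _ => (1 : ℝ≥0∞))) :=
    measurable_const.indicator hms
  have hj : ∀ j, shift t u =ᵐ[mj j] shift t v := by
    intro j
    have h1 : u =ᵐ[mj j] v := (Measure.absolutelyContinuous_of_le (mj_le j)).ae_eq h
    have h2 : ∫⁻ x, ({x | u x ≠ v x} : Set ℝ).indicator (fun _ => (1 : ℝ≥0∞)) x ∂(mj j) = 0 := by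
      rw [lintegral_indicator_const hms, one_mul]
      exact h1
    have h3 := lintegral_shift j ht hF
    rw [h2, mul_zero, lintegral_eq_zero_iff (measurable_shift hF t)] at h3
    filter_upwards [h3] with x hx
    unfold shift at hx ⊢
    by_cases h : t < x
    · rw [if_pos h] at hx ⊢
      rw [if_pos h]
      by_contra hne
      simp [hne] at hx
    · rw [if_neg h, if_neg h]
  unfold mm
  rw [Filter.EventuallyEq, Measure.ae_sum_iff]
  exact hj

/-- the square of the norm -/
noncomputable def nsq (u : ℝ → ℂ) (x : ℝ) : ℝ≥0∞ := ‖u x‖ₑ ^ 2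

lemma shift_nsq (t : ℝ) (u : ℝ → ℂ) : nsq (shift t u) = shift t (nsq u) := by
  funext x
  unfold nsq shift
  split_ifs <;> simp

lemma measurable_nsq {u : ℝ → ℂ} (hu : Measurable u) : Measurable (nsq u) := by
  unfold nsq; fun_prop

lemma eLpNorm_sq (u : ℝ → ℂ) (μ : Measure ℝ) : eLpNorm u 2 μ ^ 2 = ∫⁻ x, nsq u x ∂μ := by
  rw [eLpNorm_eq_lintegral_rpow_enorm_toReal two_ne_zero ENNReal.ofNat_ne_top]
  unfold nsq
  rw [← ENNReal.rpow_natCast, ← ENNReal.rpow_mul]
  simp

lemma eLpNorm_shift_mj (j : ℕ) {t : ℝ} (ht : 0 ≤ t) {u : ℝ → ℂ} (hu : Measurable u) :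
    eLpNorm (shift t u) 2 (mj j) =
      ENNReal.ofReal (Real.exp (-rate j * t)) * eLpNorm u 2 (mj j) := by
  have h1 : eLpNorm (shift t u) 2 (mj j) ^ 2 =
      (ENNReal.ofReal (Real.exp (-rate j * t)) * eLpNorm u 2 (mj j)) ^ 2 := by
    rw [eLpNorm_sq, mul_pow, eLpNorm_sq, shift_nsq, lintegral_shift j ht (measurable_nsq hu),
      ← ENNReal.ofReal_pow (Real.exp_pos _).le, ← Real.exp_nat_mul]
    congr 3
    push_cast; ring
  exact (ENNReal.pow_right_strictMono two_ne_zero).injective h1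

lemma eLpNorm_shift_mm {t : ℝ} (ht : 0 ≤ t) {u : ℝ → ℂ} (hu : Measurable u) :
    eLpNorm (shift t u) 2 mm ≤ eLpNorm u 2 mm := by
  have h1 : eLpNorm (shift t u) 2 mm ^ 2 ≤ eLpNorm u 2 mm ^ 2 := by
    rw [eLpNorm_sq, eLpNorm_sq, lintegral_mm, lintegral_mm]
    refine ENNReal.tsum_le_tsum (fun j => ?_)
    rw [← eLpNorm_sq, ← eLpNorm_sq, eLpNorm_shift_mj j ht hu]
    refine pow_le_pow_left' (mul_le_of_le_one_left' ?_) 2
    rw [← ENNReal.ofReal_one]
    refine ENNReal.ofReal_le_ofReal ?_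
    rw [Real.exp_le_one_iff]
    nlinarith [mul_nonneg (rate_pos j).le ht]
  exact (ENNReal.pow_right_strictMono two_ne_zero).le_iff_le.mp h1

/-- the Hilbert space -/
abbrev HH : Type := Lp ℂ 2 mm

lemma meas (u : HH) : Measurable (u : ℝ → ℂ) := (Lp.stronglyMeasurable u).measurable

lemma memLp_shift {t : ℝ} (ht : 0 ≤ t) (u : HH) : MemLp (shift t (u : ℝ → ℂ)) 2 mm :=
  ⟨(stronglyMeasurable_shift (meas u) t).aestronglyMeasurable,
    lt_of_le_of_lt (eLpNorm_shift_mm ht (meas u)) (Lp.eLpNorm_lt_top u)⟩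

lemma shift_add (t : ℝ) (u v : ℝ → ℂ) : shift t (u + v) = shift t u + shift t v := by
  funext x; unfold shift; simp only [Pi.add_apply]; split_ifs <;> simp

lemma shift_smul (t : ℝ) (c : ℂ) (u : ℝ → ℂ) : shift t (c • u) = c • shift t u := by
  funext x; unfold shift; simp only [Pi.smul_apply]; split_ifs <;> simp

/-- the operators for `t ≥ 0` -/
noncomputable def TT (t : ℝ) (ht : 0 ≤ t) : HH →L[ℂ] HH :=
  LinearMap.mkContinuous
    { toFun := fun u => (memLp_shift ht u).toLp
      map_add' := by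
        intro u v
        rw [← MemLp.toLp_add]
        rw [MemLp.toLp_eq_toLp_iff, ← shift_add]
        exact shift_ae ht (meas _) ((meas u).add (meas v)) (Lp.coeFn_add u v)
      map_smul' := by
        intro c u
        rw [RingHom.id_apply, ← MemLp.toLp_const_smul]
        rw [MemLp.toLp_eq_toLp_iff, ← shift_smul]
        exact shift_ae ht (meas _) ((meas u).const_smul c) (Lp.coeFn_smul c u) }
    1 (by
      intro u
      rw [one_mul]
      simp only [LinearMap.coe_mk, AddHom.coe_mk]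
      rw [Lp.norm_toLp, Lp.norm_def]
      exact ENNReal.toReal_mono (Lp.eLpNorm_lt_top u).ne (eLpNorm_shift_mm ht (meas u)))

lemma TT_coe {t : ℝ} (ht : 0 ≤ t) (u : HH) : (TT t ht u : ℝ → ℂ) =ᵐ[mm] shift t u :=
  MemLp.coeFn_toLp (memLp_shift ht u)

lemma TT_norm {t : ℝ} (ht : 0 ≤ t) : ‖TT t ht‖ ≤ 1 :=
  LinearMap.mkContinuous_norm_le _ zero_le_one _

lemma TT_zero : TT 0 le_rfl = ContinuousLinearMap.id ℂ HH := by
  ext1 u
  rw [ContinuousLinearMap.id_apply]
  refine Lp.ext ((TT_coe le_rfl u).trans ?_)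
  -- `shift 0 u = u` on the positive half-line
  have hj : ∀ j, shift 0 (u : ℝ → ℂ) =ᵐ[mj j] u := by
    intro j
    unfold mj
    refine (withDensity_absolutelyContinuous _ _).ae_eq ?_
    filter_upwards [ae_restrict_mem measurableSet_Ioi] with x hx
    unfold shift
    rw [if_pos (by simpa using hx), sub_zero]
  unfold mm
  rw [Filter.EventuallyEq, Measure.ae_sum_iff]
  exact hj

lemma TT_add {s t : ℝ} (hs : 0 ≤ s) (ht : 0 ≤ t) :
    TT (s + t) (add_nonneg hs ht) = (TT s hs).comp (TT t ht) := by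
  ext1 u
  rw [ContinuousLinearMap.comp_apply]
  refine Lp.ext ((TT_coe _ u).trans ?_)
  refine EventuallyEq.symm ((TT_coe hs _).trans ?_)
  have h1 := shift_ae hs (meas _) (stronglyMeasurable_shift (meas u) t).measurable (TT_coe ht u)
  refine h1.trans (EventuallyEq.of_eq ?_)
  funext x
  unfold shift
  by_cases h : s + t < x
  · rw [if_pos h, if_pos (by linarith), if_pos (by linarith), sub_sub]
  · rw [if_neg h]
    by_cases h2 : s < x
    · rw [if_pos h2, if_neg (by linarith)]
    · rw [if_neg h2]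

end Pool.Agent.K9h27.SG
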