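import Mathlib
import Pool.Agent.K9h27.SG.Conc

/-!
# The semigroup is a counterexample
-/

set_option autoImplicit false

open MeasureTheory Filter Topology Set ENNReal

namespace Pool.Agent.K9h27.SG

/-- the seminorms -/
noncomputable def NN (j : ℕ) (u : HH) : ℝ := (eLpNorm u 2 (mj j)).toReal

/-- the operators -/
noncomputable def T (t : ℝ) : HH →L[ℂ] HH := if ht : 0 ≤ t then TT t ht else 0

lemma T_eq {t : ℝ} (ht : 0 ≤ t) : T t = TT t ht := dif_pos ht

lemma ae_j (j : ℕ) {u v : ℝ → ℂ} (h : u =ᵐ[mm] v) : u =ᵐ[mj j] v :=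
  (Measure.absolutelyContinuous_of_le (mj_le j)).ae_eq h

lemma fin_j (j : ℕ) (u : HH) : eLpNorm u 2 (mj j) ≠ ⊤ :=
  (lt_of_le_of_lt (eLpNorm_mono_measure _ (mj_le j)) (Lp.eLpNorm_lt_top u)).ne

lemma aesm (j : ℕ) (u : HH) : AEStronglyMeasurable (u : ℝ → ℂ) (mj j) :=
  (Lp.stronglyMeasurable u).aestronglyMeasurable

lemma exp_le_two (j : ℕ) {y : ℝ} (hy : 0 < y) :
    rate j * Real.exp (-2 * rate j * y) ≤ 2 * (rate (j + 1) * Real.exp (-2 * rate (j + 1) * y)) := by
  rw [rate_succ]
  have h1 : Real.exp (-2 * rate j * y) ≤ Real.exp (-2 * (rate j / 2) * y) := by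
    rw [Real.exp_le_exp]
    nlinarith [mul_pos (rate_pos j) hy]
  nlinarith [rate_pos j, mul_le_mul_of_nonneg_left h1 (rate_pos j).le]

lemma scaled : Scaled NN (fun t u => T t u) where
  add := by
    intro j u v
    unfold NN
    rw [← ENNReal.toReal_add (fin_j j u) (fin_j j v)]
    refine ENNReal.toReal_mono (ENNReal.add_ne_top.mpr ⟨fin_j j u, fin_j j v⟩) ?_
    rw [eLpNorm_congr_ae (ae_j j (Lp.coeFn_add u v))]
    exact eLpNorm_add_le (aesm j u) (aesm j v) one_le_two
  smul := by
    intro j c u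
    unfold NN
    rw [eLpNorm_congr_ae (ae_j j (Lp.coeFn_smul c u)), eLpNorm_const_smul, ENNReal.toReal_mul]
    simp
  nonneg := fun j u => ENNReal.toReal_nonneg
  sum := by
    intro u
    have h1 : eLpNorm u 2 mm ^ 2 = ∑' j, eLpNorm u 2 (mj j) ^ 2 := by
      rw [eLpNorm_sq, lintegral_mm]
      exact tsum_congr (fun j => (eLpNorm_sq _ _).symm)
    have h2 : ∑' j, eLpNorm u 2 (mj j) ^ 2 ≠ ⊤ := by
      rw [← h1]; exact ENNReal.pow_ne_top (Lp.eLpNorm_lt_top u).ne
    have h3 := ENNReal.hasSum_toReal h2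
    rw [← ENNReal.tsum_toReal_eq (fun j => ENNReal.pow_ne_top (fin_j j u)), ← h1,
      ENNReal.toReal_pow] at h3
    rw [Lp.norm_def]
    simpa [NN, ENNReal.toReal_pow] using h3
  mono := by
    intro j u
    unfold NN
    have h1 : eLpNorm u 2 (mj j) ^ 2 ≤ 2 * eLpNorm u 2 (mj (j + 1)) ^ 2 := by
      have hm : Measurable (fun x => wt (j + 1) x * nsq u x) :=
        (measurable_wt _).mul (measurable_nsq (meas u))
      rw [eLpNorm_sq, eLpNorm_sq, lintegral_mj j (measurable_nsq (meas u)),
        lintegral_mj (j + 1) (measurable_nsq (meas u)), ← lintegral_const_mul _ hm]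
      refine setLIntegral_mono_ae' measurableSet_Ioi (ae_of_all _ (fun x hx => ?_))
      rw [← mul_assoc]
      refine mul_le_mul_left ?_ _
      unfold wt
      rw [show (2 : ℝ≥0∞) = ENNReal.ofReal 2 by simp, ← ENNReal.ofReal_mul (by norm_num)]
      exact ENNReal.ofReal_le_ofReal (exp_le_two j hx)
    have h2 := ENNReal.toReal_mono (ENNReal.mul_ne_top (by simp)
      (ENNReal.pow_ne_top (fin_j (j + 1) u))) h1
    simpa [ENNReal.toReal_mul, ENNReal.toReal_pow] using h2
  scale := by
    intro j t u ht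
    unfold NN
    rw [T_eq ht, eLpNorm_congr_ae (ae_j j (TT_coe ht u)), eLpNorm_shift_mj j ht (meas u),
      ENNReal.toReal_mul, ENNReal.toReal_ofReal (Real.exp_pos _).le]

lemma mj_le_vol (j : ℕ) : mj j ≤ ENNReal.ofReal (rate j) • (volume : Measure ℝ) := by
  rw [Measure.le_iff]
  intro s hs
  unfold mj
  rw [withDensity_apply _ hs, Measure.smul_apply, smul_eq_mul, Measure.restrict_restrict hs]
  calc ∫⁻ a in s ∩ Ioi 0, wt j a ≤ ∫⁻ _ in s ∩ Ioi 0, ENNReal.ofReal (rate j) := by
        refine setLIntegral_mono_ae' (hs.inter measurableSet_Ioi) (ae_of_all _ (fun x hx => ?_))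
        unfold wt
        refine ENNReal.ofReal_le_ofReal (mul_le_of_le_one_right (rate_pos j).le ?_)
        rw [Real.exp_le_one_iff]
        have : (0 : ℝ) < x := hx.2
        nlinarith [mul_pos (rate_pos j) this]
    _ = ENNReal.ofReal (rate j) * volume (s ∩ Ioi 0) := by
        rw [setLIntegral_const]
    _ ≤ ENNReal.ofReal (rate j) * volume s := by gcongr; exact inter_subset_left

lemma mm_le_vol : mm ≤ (2 : ℝ≥0∞) • (volume : Measure ℝ) := by
  rw [Measure.le_iff]
  intro s hs
  unfold mm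
  rw [Measure.sum_apply _ hs, Measure.smul_apply, smul_eq_mul]
  calc ∑' j, mj j s ≤ ∑' j, ENNReal.ofReal (rate j) * volume s :=
        ENNReal.tsum_le_tsum (fun j => by simpa using Measure.le_iff.mp (mj_le_vol j) s hs)
    _ = (∑' j, ENNReal.ofReal (rate j)) * volume s := ENNReal.tsum_mul_right
    _ ≤ 2 * volume s := by
        gcongr
        rw [← ENNReal.ofReal_tsum_of_nonneg (fun j => (rate_pos j).le)
          (by unfold rate; exact summable_geometric_two)]
        unfold rate
        rw [tsum_geometric_two]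
        simp

instance : IsLocallyFiniteMeasure mm where
  finiteAtNhds x := by
    refine ⟨Metric.ball x 1, Metric.ball_mem_nhds x one_pos, ?_⟩
    refine lt_of_le_of_lt (mm_le_vol (Metric.ball x 1)) ?_
    rw [Measure.smul_apply, smul_eq_mul]
    exact ENNReal.mul_lt_top (by simp) measure_ball_lt_top

lemma ae_pos : ∀ᵐ x ∂mm, (0 : ℝ) < x := by
  unfold mm
  rw [Measure.ae_sum_iff]
  intro j
  unfold mj
  refine (withDensity_absolutelyContinuous _ _) ?_
  exact ae_restrict_mem measurableSet_Ioi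

lemma tendsto_cc {g : ℝ → ℂ} (hg : Continuous g) (hc : HasCompactSupport g) :
    Tendsto (fun t : ℝ => eLpNorm (shift t g - g) 2 mm) (𝓝[>] 0) (𝓝 0) := by
  obtain ⟨M, hM⟩ : ∃ M, ∀ x, ‖g x‖ ≤ M := hg.bounded_above_of_compact_support hc
  obtain ⟨R, hR⟩ : ∃ R, ∀ x, R < |x| → g x = 0 := by
    obtain ⟨R, hR⟩ := hc.isCompact.isBounded.subset_closedBall 0
    refine ⟨R, fun x hx => ?_⟩
    by_contra hne
    have h1 := hR (subset_tsupport g hne)
    rw [Metric.mem_closedBall, Real.dist_eq, sub_zero] at h1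
    linarith
  have hM0 : 0 ≤ M := (norm_nonneg _).trans (hM 0)
  set B : ℝ → ℝ≥0∞ := (Icc (-(|R| + 1)) (|R| + 1)).indicator (fun _ => ENNReal.ofReal ((2 * M) ^ 2))
    with hB
  have h0 : Tendsto (fun t : ℝ => ∫⁻ x, nsq (shift t g - g) x ∂mm) (𝓝[>] 0) (𝓝 0) := by
    have : (0 : ℝ≥0∞) = ∫⁻ _, 0 ∂mm := by simp
    rw [this]
    refine tendsto_lintegral_filter_of_dominated_convergence B ?_ ?_ ?_ ?_
    · exact Eventually.of_forall (fun t => measurable_nsq ((measurable_shift hg.measurable t).sub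
        hg.measurable))
    · filter_upwards [self_mem_nhdsWithin, Ioc_mem_nhdsGT (zero_lt_one)] with t ht ht1
      refine ae_of_all _ (fun x => ?_)
      by_cases hx : x ∈ Icc (-(|R| + 1)) (|R| + 1)
      · rw [hB, indicator_of_mem hx]
        unfold nsq
        rw [← ofReal_norm, ← ENNReal.ofReal_pow (norm_nonneg _)]
        refine ENNReal.ofReal_le_ofReal (pow_le_pow_left₀ (norm_nonneg _) ?_ 2)
        refine (norm_sub_le _ _).trans ?_
        have h1 : ‖shift t g x‖ ≤ M := by
          unfold shift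
          split_ifs
          · exact hM _
          · simpa using hM0
        linarith [hM x]
      · have hx' : |R| + 1 < |x| := by
          by_contra hcon
          rw [not_lt, abs_le] at hcon
          exact hx ⟨hcon.1, hcon.2⟩
        have h1 : g x = 0 := hR x (by linarith [le_abs_self R])
        have h2 : shift t g x = 0 := by
          unfold shift
          split_ifs with h
          · refine hR _ ?_
            have h3 : |x| ≤ |x - t| + |t| := by
              have := abs_add_le (x - t) t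
              rwa [sub_add_cancel] at this
            have h4 : |t| = t := abs_of_pos ht
            rw [h4] at h3
            linarith [le_abs_self R, ht1.2]
          · rfl
        unfold nsq
        simp [h1, h2]
    · rw [hB, lintegral_indicator_const measurableSet_Icc]
      exact ENNReal.mul_ne_top ENNReal.ofReal_ne_top isCompact_Icc.measure_lt_top.ne
    · filter_upwards [ae_pos] with x hx
      have h1 : Tendsto (fun t : ℝ => g (x - t) - g x) (𝓝[>] 0) (𝓝 0) := by
        have h2 : Continuous (fun t : ℝ => g (x - t) - g x) := by fun_prop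
        have h3 := h2.tendsto 0
        simp only [sub_zero, sub_self] at h3
        exact h3.mono_left nhdsWithin_le_nhds
      have h4 : Tendsto (fun t : ℝ => ‖g (x - t) - g x‖ₑ ^ 2) (𝓝[>] 0) (𝓝 0) := by
        have h5 : Tendsto (fun t : ℝ => ‖g (x - t) - g x‖ₑ) (𝓝[>] 0) (𝓝 0) := by
          simpa using h1.enorm
        have h6 := ((ENNReal.continuous_pow 2).tendsto 0).comp h5
        simpa [Function.comp_def] using h6
      refine h4.congr' ?_
      filter_upwards [Ioo_mem_nhdsGT hx] with t ht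
      unfold nsq shift
      simp only [Pi.sub_apply]
      rw [if_pos ht.2]
  have h1 : ∀ t, eLpNorm (shift t g - g) 2 mm = (∫⁻ x, nsq (shift t g - g) x ∂mm) ^ (1 / 2 : ℝ) := by
    intro t
    rw [← eLpNorm_sq, ← ENNReal.rpow_natCast, ← ENNReal.rpow_mul]
    norm_num
  simp only [h1]
  have h2 := (ENNReal.continuous_rpow_const (y := (1 / 2 : ℝ))).tendsto 0
  rw [ENNReal.zero_rpow_of_pos (by norm_num)] at h2
  exact h2.comp h0

lemma strong_zero (u : HH) : Tendsto (fun t : ℝ => T t u) (𝓝[>] 0) (𝓝 u) := by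
  rw [tendsto_iff_norm_sub_tendsto_zero]
  rw [Metric.tendsto_nhds]
  intro ε hε
  have hε4 : ENNReal.ofReal (ε / 4) ≠ 0 := by
    simpa using (by positivity : 0 < ε / 4)
  obtain ⟨g, hgc, hgn, hg, hgm⟩ :=
    (Lp.memLp u).exists_hasCompactSupport_eLpNorm_sub_le (by simp) hε4
  have hcc := (tendsto_cc hg hgc)
  rw [ENNReal.tendsto_nhds_zero] at hcc
  filter_upwards [hcc _ (pos_iff_ne_zero.mpr hε4), self_mem_nhdsWithin] with t ht ht0
  have ht0' : (0 : ℝ) ≤ t := le_of_lt ht0
  have hmug : Measurable ((u : ℝ → ℂ) - g) := (meas u).sub hg.measurable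
  have h1 : ‖T t u - u‖ = (eLpNorm (shift t (u : ℝ → ℂ) - (u : ℝ → ℂ)) 2 mm).toReal := by
    rw [Lp.norm_def]
    congr 1
    refine eLpNorm_congr_ae ((Lp.coeFn_sub _ _).trans ?_)
    rw [T_eq ht0']
    exact (TT_coe ht0' u).sub EventuallyEq.rfl
  have h2 : shift t (u : ℝ → ℂ) - (u : ℝ → ℂ) =
      shift t ((u : ℝ → ℂ) - g) + (shift t g - g) + (g - (u : ℝ → ℂ)) := by
    funext x
    simp only [Pi.add_apply, Pi.sub_apply]
    unfold shift
    simp only [Pi.sub_apply]
    split_ifs <;> ring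
  have h3 : eLpNorm (shift t (u : ℝ → ℂ) - (u : ℝ → ℂ)) 2 mm ≤ ENNReal.ofReal (ε / 4 + ε / 4 + ε / 4) := by
    rw [h2]
    rw [ENNReal.ofReal_add (by positivity) (by positivity),
      ENNReal.ofReal_add (by positivity) (by positivity)]
    refine (eLpNorm_add_le ?_ ?_ one_le_two).trans (add_le_add ((eLpNorm_add_le ?_ ?_ one_le_two).trans
      (add_le_add ?_ ht)) ?_)
    · exact (((measurable_shift hmug t).add ((measurable_shift hg.measurable t).sub
        hg.measurable))).aestronglyMeasurable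
    · exact (hg.measurable.sub (meas u)).aestronglyMeasurable
    · exact (measurable_shift hmug t).aestronglyMeasurable
    · exact ((measurable_shift hg.measurable t).sub hg.measurable).aestronglyMeasurable
    · exact (eLpNorm_shift_mm ht0' hmug).trans hgn
    · rw [eLpNorm_sub_comm]; exact hgn
  rw [Real.dist_eq, sub_zero, abs_of_nonneg (norm_nonneg _), h1]
  calc _ ≤ (ENNReal.ofReal (ε / 4 + ε / 4 + ε / 4)).toReal :=
        ENNReal.toReal_mono ENNReal.ofReal_ne_top h3
    _ = ε / 4 + ε / 4 + ε / 4 := ENNReal.toReal_ofReal (by positivity)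
    _ < ε := by linarith

lemma T_add {s t : ℝ} (hs : 0 ≤ s) (ht : 0 ≤ t) : T (s + t) = (T s).comp (T t) := by
  rw [T_eq hs, T_eq ht, T_eq (add_nonneg hs ht), TT_add hs ht]

lemma T_norm {t : ℝ} (ht : 0 ≤ t) : ‖T t‖ ≤ 1 := by rw [T_eq ht]; exact TT_norm ht

lemma T_zero : T 0 = ContinuousLinearMap.id ℂ HH := by rw [T_eq le_rfl, TT_zero]

lemma T_diff {s t : ℝ} (hs : 0 ≤ s) (ht : 0 ≤ t) (u : HH) : ‖T t u - T s u‖ ≤ ‖T |t - s| u - u‖ := by
  rcases le_total s t with h | h
  · have h1 : T t u = T s (T (t - s) u) := by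
      have := T_add hs (sub_nonneg.mpr h)
      rw [add_sub_cancel] at this
      rw [this, ContinuousLinearMap.comp_apply]
    rw [abs_of_nonneg (sub_nonneg.mpr h), h1, ← map_sub]
    exact ((T s).le_of_opNorm_le (T_norm hs) _).trans (by rw [one_mul])
  · have h1 : T s u = T t (T (s - t) u) := by
      have := T_add ht (sub_nonneg.mpr h)
      rw [add_sub_cancel] at this
      rw [this, ContinuousLinearMap.comp_apply]
    rw [abs_of_nonpos (sub_nonpos.mpr h), neg_sub, h1, norm_sub_rev, ← map_sub]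
    exact ((T t).le_of_opNorm_le (T_norm ht) _).trans (by rw [one_mul])

lemma strong (u : HH) : ContinuousOn (fun t : ℝ => T t u) (Ici 0) := by
  intro s hs
  unfold ContinuousWithinAt
  rw [Metric.tendsto_nhds]
  intro ε hε
  have h1 := strong_zero u
  rw [Metric.tendsto_nhds] at h1
  have h2 := h1 ε hε
  rw [eventually_nhdsWithin_iff, Metric.eventually_nhds_iff] at h2
  obtain ⟨δ, hδ, h3⟩ := h2
  rw [eventually_nhdsWithin_iff, Metric.eventually_nhds_iff]
  refine ⟨δ, hδ, fun t ht ht0 => ?_⟩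
  rw [dist_eq_norm]
  refine lt_of_le_of_lt (T_diff hs ht0 u) ?_
  rcases eq_or_ne t s with h | h
  · rw [h, sub_self, abs_zero, T_zero]
    simpa using hε
  · rw [← dist_eq_norm]
    refine h3 ?_ (abs_pos.mpr (sub_ne_zero.mpr h))
    rw [Real.dist_eq, sub_zero, abs_abs]
    rwa [Real.dist_eq] at ht

lemma mm_pos : mm (Ioo 0 1) ≠ 0 := by
  have h0 : mj 0 (Ioo 0 1) ≠ 0 := by
    unfold mj
    rw [withDensity_apply _ measurableSet_Ioo]
    intro h
    rw [lintegral_eq_zero_iff (measurable_wt 0), Measure.restrict_restrict measurableSet_Ioo] at h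
    have h1 : (Ioo (0 : ℝ) 1 ∩ Ioi 0) = Ioo 0 1 := by
      ext x; simp only [mem_inter_iff, mem_Ioo, mem_Ioi]; tauto
    rw [h1] at h
    have h2 : (volume.restrict (Ioo (0 : ℝ) 1)) univ = 0 := by
      have h3 : ∀ᵐ x ∂(volume.restrict (Ioo (0 : ℝ) 1)), False := by
        filter_upwards [h] with x hx
        have : 0 < wt 0 x := by
          unfold wt
          rw [ENNReal.ofReal_pos]
          exact mul_pos (rate_pos 0) (Real.exp_pos _)
        exact absurd hx this.ne'
      rw [ae_iff] at h3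
      simp at h3
    rw [Measure.restrict_apply_univ, Real.volume_Ioo] at h2
    norm_num at h2
  intro h
  exact h0 (le_antisymm ((mj_le 0 _).trans h.le) bot_le)

lemma exists_ne : ∃ u : HH, u ≠ 0 := by
  have hfin : mm (Ioo 0 1) ≠ ⊤ :=
    ((measure_mono Ioo_subset_Icc_self).trans_lt isCompact_Icc.measure_lt_top).ne
  refine ⟨indicatorConstLp 2 measurableSet_Ioo hfin (1 : ℂ), fun h => ?_⟩
  have h1 : ‖indicatorConstLp 2 measurableSet_Ioo hfin (1 : ℂ)‖ = 0 := by rw [h, norm_zero]
  rw [norm_indicatorConstLp two_ne_zero (by simp)] at h1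
  simp only [norm_one, one_mul] at h1
  rw [Real.rpow_eq_zero_iff_of_nonneg measureReal_nonneg] at h1
  rw [measureReal_def, ENNReal.toReal_eq_zero_iff] at h1
  rcases h1.1 with h2 | h2
  · exact mm_pos h2
  · exact hfin h2

end Pool.Agent.K9h27.SG
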